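import Pool.Agent.H581R2.Ladner

/-!
# Ladner's theorem in the Blum–Shub–Smale model over the reals

The model (machines, running time, `PR`, `NPR`, reductions, completeness) is defined in
`Pool.Agent.H581R2.Model`.

Outline of the proof.  Let `X` be in `NP` but not in `P`, and suppose there is no intermediate
problem.  Restricting `X` to any set `E` of input lengths gives a problem in `NP` (a real constant
codes `E`).  Cut the lengths into fast growing blocks.  The sets `A` of blocks on which `X` is
solved by programs of polynomial size with fixed real constants form an ideal; since every
restriction of `X` is in `P` or complete, restricting to a residue class modulo `3` gives a
prime ideal, proper and containing the finite sets.  By quantifier elimination over the real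
field the good constants of a block form a countable union of compact sets, so that this prime
ideal is an analytic subset of Cantor space, which is impossible by Baire category.
-/

namespace Pool.Agent.Results.MP_25fb88_lc.RealLadner

open Pool.Agent.H581R2

/-- If `P ≠ NP` over the reals then some problem in `NP` is neither in `P` nor complete. -/
theorem result : PR ≠ NPR → ∃ L ∈ NPR, L ∉ PR ∧ ¬ NPRComplete L :=
  ladner

end Pool.Agent.Results.MP_25fb88_lc.RealLadner
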